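import Mathlib
import Pool.Agent.K3h59.PE.Equiv

/-!
# Local PEPS approximation and the ground state energy, for Hamiltonians with a stable gap

Let `h` be a translation invariant finite-range interaction on the square lattice with unique ground
states `ψ L` and a uniform gap which is stable under small translation invariant perturbations
supported on a finite region `R` (which contains the support `B` of `h`).

(1) There is `C` such that for every `ε ∈ (0, 1]` and every `m ≥ C / ε²` the following holds. If SOME
nonzero PEPS vector `P` on the `m × m` torus, with ARBITRARY tensors of bond dimension `f` (which may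
differ from site to site), has energy at most `(E_m + m² ε² / C) ‖P‖²`, `E_m` the ground state energy,
then there is ONE translation invariant tensor of bond dimension at most `C (m / ε²)² f⁴` whose PEPS
vectors are nonzero and whose reduced states on `R` are within `ε` (in trace norm) of those of the
ground states on ALL tori of side `L ≥ C (m / ε²)²`.

(2) Hence, for such Hamiltonians, local approximation of the ground states with a bond dimension
polynomial in `1 / ε` (Q2) is equivalent to the approximation of the ground state energy per site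
up to `ε` by PEPS of bond dimension polynomial in `1 / ε`, for each `ε` on one torus of side between
`1 / ε` and `poly (1 / ε)`. No overlap with the ground states and no control of correlations is needed.
-/

set_option autoImplicit false

open scoped BigOperators
open Pool.Agent.H4R2

namespace Pool.Agent.Results.MP_0f69bf_mp.EnergyCriterion

/-- The gap of `h` is stable under perturbations supported on the region `R`: for every Hermitian
`O` on `R` there are `δ, Δ > 0` such that for all large `L` and all `0 < t ≤ δ` the Hamiltonian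
`H_L(h) + t H_L(O)` has a unique ground state, with a gap of at least `Δ`. -/
def StableGap {d : ℕ} (B : Finset (ℤ × ℤ)) (h : Matrix (B → Fin d) (B → Fin d) ℂ)
    (R : Finset (ℤ × ℤ)) : Prop :=
  ∀ O : Matrix (R → Fin d) (R → Fin d) ℂ, O.IsHermitian → ∃ δ : ℝ, 0 < δ ∧ ∃ Δ : ℝ, 0 < Δ ∧
    ∃ L₁ : ℕ, ∀ (L : ℕ) [NeZero L], L₁ ≤ L → ∀ t : ℝ, 0 < t → t ≤ δ →
      ∃ φ : (Site L → Fin d) → ℂ, normSq φ = 1 ∧
        IsGappedGround (ham B h L + (t : ℂ) • ham R O L) Δ φ

/-- The PEPS vector on the `m × m` torus with the tensor `T x` (of bond dimension `f`) at the site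
`x`; the tensors may differ from site to site. The arguments of a tensor are the physical index and
the left, right, up and down virtual indices. -/
noncomputable def network {d f m : ℕ} [NeZero m] (T : Site m → Tensor d f) :
    (Site m → Fin d) → ℂ := fun s =>
  ∑ h : Site m → Fin f, ∑ v : Site m → Fin f,
    ∏ x : Site m, T x (s x) (h (x.1 - 1, x.2)) (h x) (v x) (v (x.1, x.2 - 1))

/-- The energy `⟨φ, H φ⟩` (its real part). -/
noncomputable def energy {n : Type} [Fintype n] (H : Matrix n n ℂ) (φ : n → ℂ) : ℝ :=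
  (∑ s, (starRingEnd ℂ) (φ s) * (H.mulVec φ) s).re

/-- Q2 for the region `R`: the reduced states on `R` are approximated up to `ε`, on all tori of side
at least a polynomial in `1 / ε`, by one translation invariant tensor with a bond dimension
polynomial in `1 / ε`. -/
def EfficientLocalStates {d : ℕ} (R : Finset (ℤ × ℤ))
    (ψ : ∀ (L : ℕ) [NeZero L], (Site L → Fin d) → ℂ) : Prop :=
  ∃ c k : ℕ, ∀ ε : ℝ, 0 < ε → ε ≤ 1 → ∃ (D : ℕ) (A : Tensor d D),
    (D : ℝ) ≤ c * (1 / ε) ^ k ∧ ∀ (L : ℕ) [NeZero L], (c : ℝ) * (1 / ε) ^ k ≤ L →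
      contract A L ≠ 0 ∧ traceNorm (redState R (ψ L) - redState R (contract A L)) ≤ ε

/-- The ground state energy per site is approximated up to `ε` by a PEPS with arbitrary tensors, of
bond dimension polynomial in `1 / ε`, on one torus of side between `1 / ε` and `poly (1 / ε)`. -/
def EfficientEnergy {d : ℕ} (B : Finset (ℤ × ℤ)) (h : Matrix (B → Fin d) (B → Fin d) ℂ)
    (ψ : ∀ (L : ℕ) [NeZero L], (Site L → Fin d) → ℂ) : Prop :=
  ∃ c k : ℕ, ∀ ε : ℝ, 0 < ε → ε ≤ 1 → ∃ (m : ℕ) (_ : NeZero m) (f : ℕ) (T : Site m → Tensor d f),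
    1 / ε ≤ m ∧ (m : ℝ) ≤ c * (1 / ε) ^ k ∧ (f : ℝ) ≤ c * (1 / ε) ^ k ∧ network T ≠ 0 ∧
    energy (ham B h m) (network T) ≤
      (energy (ham B h m) (ψ m) + (m : ℝ) ^ 2 * ε) * normSq (network T)

/-- **Theorem.** -/
theorem result (d : ℕ) (hd : 2 ≤ d) (B R : Finset (ℤ × ℤ)) (hBR : B ⊆ R)
    (h : Matrix (B → Fin d) (B → Fin d) ℂ) (hh : h.IsHermitian)
    (ψ : ∀ (L : ℕ) [NeZero L], (Site L → Fin d) → ℂ) (hgap : GappedFamily B h ψ)
    (hst : StableGap B h R) :
    -- (1) from one good energy to the local states of all large tori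
    (∃ C : ℝ, 1 ≤ C ∧ ∀ ε : ℝ, 0 < ε → ε ≤ 1 → ∀ (m : ℕ) [NeZero m], C / ε ^ 2 ≤ m →
      ∀ (f : ℕ) (T : Site m → Tensor d f), network T ≠ 0 →
      energy (ham B h m) (network T) ≤
        (energy (ham B h m) (ψ m) + (m : ℝ) ^ 2 * (ε ^ 2 / C)) * normSq (network T) →
      ∃ (D : ℕ) (A : Tensor d D), (D : ℝ) ≤ C * (m / ε ^ 2) ^ 2 * (f : ℝ) ^ 4 ∧
        ∀ (L : ℕ) [NeZero L], C * (m / ε ^ 2) ^ 2 ≤ L →
          contract A L ≠ 0 ∧ traceNorm (redState R (ψ L) - redState R (contract A L)) ≤ ε) ∧
    -- (2) the equivalence at the polynomial scale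
    (EfficientLocalStates R ψ ↔ EfficientEnergy B h ψ) :=
  ⟨Pool.Agent.K3h59.PE.stable_crit hd hBR hh ψ hgap hst,
    fun hS => Pool.Agent.K3h59.PE.energy_of_states hBR hh ψ hgap hS,
    fun hE => Pool.Agent.K3h59.PE.states_of_energy ψ
      (Pool.Agent.K3h59.PE.stable_crit hd hBR hh ψ hgap hst) hE⟩

end Pool.Agent.Results.MP_0f69bf_mp.EnergyCriterion
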