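import Mathlib
import Pool.Agent.K3h59.PE.Few

/-!
# Efficient local PEPS approximation for stably gapped Hamiltonians with few low-lying states

Let `h` be a translation invariant finite-range interaction on the square lattice with unique ground
states `ψ L` and a uniform gap which is stable under small translation invariant perturbations
supported on the finite region `R`. Let `k ≥ 1` and suppose that for some `C`, for all large `L`,

* the Hamiltonian on the `L × L` torus has at most `exp (C (n + 1) (log L)^k)` eigenvalues up to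
  `E₀ + n`, for all natural numbers `n`; or, which is weaker,
* at some inverse temperature `0 ≤ β ≤ C (log L)^k` one has `Tr exp (-β (H_L - E₀)) ≤ exp (C (log L)^k)`.

Then for every `ε ∈ (0, 1/2]` there is one translation invariant tensor of bond dimension at most
`exp (C' (log (1/ε))^k)` whose PEPS vectors are nonzero and whose reduced states on `R` are within `ε`
(in trace norm) of those of the ground states, on all tori of side `L ≥ C' (1/ε)^8`.

For `k = 1` (at most `L^(C (n+1))` eigenvalues up to `E₀ + n`) the bond dimension is polynomial in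
`1 / ε`: this is the positive answer to Q2 for these Hamiltonians.
-/

set_option autoImplicit false

open scoped BigOperators
open Pool.Agent.H4R2

namespace Pool.Agent.Results.MP_0f69bf_mp.FewLowStates

/-- The gap of `h` is stable under perturbations supported on the region `R`: for every Hermitian
`O` on `R` there are `δ, Δ > 0` such that for all large `L` and all `0 < t ≤ δ` the Hamiltonian
`H_L(h) + t H_L(O)` has a unique ground state, with a gap of at least `Δ`. -/
def StableGap {d : ℕ} (B : Finset (ℤ × ℤ)) (h : Matrix (B → Fin d) (B → Fin d) ℂ)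
    (R : Finset (ℤ × ℤ)) : Prop :=
  ∀ O : Matrix (R → Fin d) (R → Fin d) ℂ, O.IsHermitian → ∃ δ : ℝ, 0 < δ ∧ ∃ Δ : ℝ, 0 < Δ ∧
    ∃ L₁ : ℕ, ∀ (L : ℕ) [NeZero L], L₁ ≤ L → ∀ t : ℝ, 0 < t → t ≤ δ →
      ∃ φ : (Site L → Fin d) → ℂ, normSq φ = 1 ∧
        IsGappedGround (ham B h L + (t : ℂ) • ham R O L) Δ φ

/-- The energy `⟨φ, H φ⟩` (its real part); for a normalised ground state this is the least
eigenvalue. -/
noncomputable def energy {n : Type} [Fintype n] (H : Matrix n n ℂ) (φ : n → ℂ) : ℝ :=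
  (∑ s, (starRingEnd ℂ) (φ s) * (H.mulVec φ) s).re

/-- The number of eigenvalues of `H` (with multiplicity) which are at most `E`. -/
noncomputable def numStates {n : Type} [Fintype n] [DecidableEq n] {H : Matrix n n ℂ}
    (hH : H.IsHermitian) (E : ℝ) : ℕ :=
  (Finset.univ.filter fun j => hH.eigenvalues j ≤ E).card

/-- For all large `L` and every natural number `n` the Hamiltonian `H_L` has at most
`exp (C (n + 1) (log L)^k)` eigenvalues (with multiplicity) up to `E₀ + n`, where `E₀` is the energy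
of the ground state `ψ L`. -/
def FewStates {d : ℕ} (B : Finset (ℤ × ℤ)) (h : Matrix (B → Fin d) (B → Fin d) ℂ)
    (ψ : ∀ (L : ℕ) [NeZero L], (Site L → Fin d) → ℂ) (k : ℕ) : Prop :=
  ∃ (C : ℝ) (L₀ : ℕ), ∀ (L : ℕ) [NeZero L], L₀ ≤ L → ∀ (hH : (ham B h L).IsHermitian) (n : ℕ),
    (numStates hH (energy (ham B h L) (ψ L) + n) : ℝ) ≤
      Real.exp (C * (n + 1) * Real.log L ^ k)

/-- For all large `L` there is an inverse temperature `0 ≤ β ≤ C (log L)^k` at which
`Tr exp (-β (H_L - E₀)) ≤ exp (C (log L)^k)`. -/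
def SmallPartition {d : ℕ} (B : Finset (ℤ × ℤ)) (h : Matrix (B → Fin d) (B → Fin d) ℂ)
    (ψ : ∀ (L : ℕ) [NeZero L], (Site L → Fin d) → ℂ) (k : ℕ) : Prop :=
  ∃ (C : ℝ) (L₀ : ℕ), ∀ (L : ℕ) [NeZero L], L₀ ≤ L → ∀ hH : (ham B h L).IsHermitian,
    ∃ β : ℝ, 0 ≤ β ∧ β ≤ C * Real.log L ^ k ∧
      ∑ j, Real.exp (-(β * (hH.eigenvalues j - energy (ham B h L) (ψ L)))) ≤
        Real.exp (C * Real.log L ^ k)

section aux

variable {d : ℕ} {B : Finset (ℤ × ℤ)} {h : Matrix (B → Fin d) (B → Fin d) ℂ}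
  {ψ : ∀ (L : ℕ) [NeZero L], (Site L → Fin d) → ℂ} {k : ℕ}

theorem few_box (hS : FewStates B h ψ k) : ∃ C : ℝ,
    Pool.Agent.Results.MP_953b23_mp.ThermalCriterion.FewStates
      (Pool.Agent.K3h59.PE.boxOp B h) (Pool.Agent.K3h59.PE.fam ψ) k C := by
  obtain ⟨C, L₀, hS⟩ := hS
  refine ⟨C, L₀ + 2 * rad B + 1, ?_⟩
  intro L _ hL hH n
  revert hH
  rw [Pool.Agent.K3h59.PE.ham_boxOp B h (by omega), Pool.Agent.K3h59.PE.fam_eq]
  intro hH
  exact hS L (by omega) hH n

theorem small_box (hS : SmallPartition B h ψ k) : ∃ C : ℝ,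
    Pool.Agent.Results.MP_953b23_mp.ThermalCriterion.SmallPartition
      (Pool.Agent.K3h59.PE.boxOp B h) (Pool.Agent.K3h59.PE.fam ψ) k C := by
  obtain ⟨C, L₀, hS⟩ := hS
  refine ⟨C, L₀ + 2 * rad B + 1, ?_⟩
  intro L _ hL hH
  revert hH
  rw [Pool.Agent.K3h59.PE.ham_boxOp B h (by omega), Pool.Agent.K3h59.PE.fam_eq]
  intro hH
  exact hS L (by omega) hH

end aux

/-- **Theorem.** -/
theorem result (d : ℕ) (hd : 2 ≤ d) (B R : Finset (ℤ × ℤ)) (hBR : B ⊆ R)
    (h : Matrix (B → Fin d) (B → Fin d) ℂ) (hh : h.IsHermitian)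
    (ψ : ∀ (L : ℕ) [NeZero L], (Site L → Fin d) → ℂ) (hgap : GappedFamily B h ψ)
    (hst : StableGap B h R) (k : ℕ) (hk : 1 ≤ k)
    (hS : FewStates B h ψ k ∨ SmallPartition B h ψ k) :
    ∃ C : ℝ, ∀ ε : ℝ, 0 < ε → ε ≤ 1 / 2 → ∃ (D : ℕ) (A : Tensor d D),
      (D : ℝ) ≤ Real.exp (C * Real.log (1 / ε) ^ k) ∧
        ∀ (L : ℕ) [NeZero L], C * (1 / ε) ^ 8 ≤ L →
          contract A L ≠ 0 ∧ traceNorm (redState R (ψ L) - redState R (contract A L)) ≤ ε := by
  obtain ⟨Δ, hF⟩ := Pool.Agent.K3h59.PE.gapped_box hh ψ hgap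
  have hP : ∃ C : ℝ, Pool.Agent.Results.MP_953b23_mp.ThermalCriterion.SmallPartition
      (Pool.Agent.K3h59.PE.boxOp B h) (Pool.Agent.K3h59.PE.fam ψ) k C := by
    rcases hS with hS | hS
    · obtain ⟨C, hC⟩ := few_box hS
      exact Pool.Agent.Results.MP_953b23_mp.ThermalCriterion.few_to_small hF hC
    · exact small_box hS
  obtain ⟨C, hC⟩ := hP
  obtain ⟨C', hC'⟩ := Pool.Agent.TH235.PQ.small_to_approxK Pool.Agent.TH235.PQ.therm0 hF hC k 1
    hk le_rfl zero_le_one
  exact Pool.Agent.K3h59.PE.local_of_approx hh ψ hgap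
    (Pool.Agent.K3h59.PE.stable_crit hd hBR hh ψ hgap hst) hk
    (Pool.Agent.Results.MP_953b23_mp.ThermalCriterion.exp_to_rpow' hk one_pos hC')

end Pool.Agent.Results.MP_0f69bf_mp.FewLowStates
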