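import Mathlib
import Pool.Agent.K3h59.PE.GenCrit

/-!
# Energy controls the local states at almost every interaction

Let `R` be a finite region of the square lattice. The translation invariant interactions on `R` form
a finite dimensional real vector space (coordinates `x`, see `herm`). The ground state energy per
site `e x` satisfies `E_L = e x L² + O(L)` for the least eigenvalue on the `L × L` torus. For
Lebesgue almost every `x`, WITHOUT any assumption on the gap or on the ground space, there are one
limiting local state `ρ` on `R` and a `C` such that for all `L ≥ C` every translation invariant unit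
vector whose energy is at most `(e x + η) L²` has its reduced state on `R` within `C √(η + 1/L)` of
`ρ` in trace norm. In particular the reduced states of all translation invariant ground vectors
converge to `ρ` at the rate `L^(-1/2)`, and every translation invariant PEPS with energy density at
most `e x + η` gives the local states of the ground vectors up to `O(√(η + 1/L))`.
-/

set_option autoImplicit false

open MeasureTheory
open scoped BigOperators
open Pool.Agent.H4R2
open Pool.Agent.Y665.PE (TransInv herm)

namespace Pool.Agent.Results.MP_0f69bf_mp.GenericRate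

/-- `E` is the least eigenvalue of `H`. -/
def LeastEigenvalue {n : Type} [Fintype n] (H : Matrix n n ℂ) (E : ℝ) : Prop :=
  (∃ ψ : n → ℂ, ψ ≠ 0 ∧ H.mulVec ψ = (E : ℂ) • ψ) ∧
    ∀ (E' : ℝ) (φ : n → ℂ), φ ≠ 0 → H.mulVec φ = (E' : ℂ) • φ → E ≤ E'

/-- `ψ` is a normalised eigenvector of `H` for the least eigenvalue, and an eigenvector of all
translations (this holds for every normalised ground vector if the ground space is
one-dimensional). -/
def InvariantGroundVector {d L : ℕ} [NeZero L]
    (H : Matrix (Site L → Fin d) (Site L → Fin d) ℂ) (ψ : (Site L → Fin d) → ℂ) : Prop :=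
  normSq ψ = 1 ∧ TransInv ψ ∧ ∃ E : ℝ, LeastEigenvalue H E ∧ H.mulVec ψ = (E : ℂ) • ψ

/-- The energy `⟨φ, H φ⟩` (its real part). -/
noncomputable def energy {n : Type} [Fintype n] (H : Matrix n n ℂ) (φ : n → ℂ) : ℝ :=
  (∑ s, (starRingEnd ℂ) (φ s) * (H.mulVec φ) s).re

/-- **Theorem.** -/
theorem result (d : ℕ) (hd : 2 ≤ d) (R : Finset (ℤ × ℤ)) :
    ∃ e : ((R → Fin d) → (R → Fin d) → ℝ) → ℝ,
      -- the energy density of every interaction
      (∀ x, ∃ C : ℝ, ∀ (L : ℕ) [NeZero L], C ≤ L → ∀ E : ℝ,
        LeastEigenvalue (ham R (herm x) L) E → |E - e x * (L : ℝ) ^ 2| ≤ C * L) ∧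
      -- the local states of almost every interaction
      (∀ᵐ x, ∃ (ρ : Matrix (R → Fin d) (R → Fin d) ℂ) (C : ℝ), ∀ (L : ℕ) [NeZero L], C ≤ L →
        (∀ φ : (Site L → Fin d) → ℂ, normSq φ = 1 → TransInv φ → ∀ η : ℝ, 0 ≤ η →
          energy (ham R (herm x) L) φ ≤ (e x + η) * (L : ℝ) ^ 2 →
          traceNorm (redState R φ - ρ) ≤ C * Real.sqrt (η + 1 / L)) ∧
        (∀ φ : (Site L → Fin d) → ℂ, InvariantGroundVector (ham R (herm x) L) φ →
          traceNorm (redState R φ - ρ) ≤ C / Real.sqrt L)) :=
  Pool.Agent.K3h59.PE.generic_rate hd R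

end Pool.Agent.Results.MP_0f69bf_mp.GenericRate
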