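import Mathlib
import Pool.Agent.K3h59.TE.I

/-!
# Local PEPS approximation from the energy of thermal states, without a gap

Let `R` be a finite region of the square lattice. We consider translation invariant interactions on
`R`: Lebesgue almost every one (in the finite dimensional real space of interactions, WITHOUT any
assumption on the gap or on the ground space), and every one which has unique ground states and a gap
stable under small perturbations on `R`.

(1) There is `C` such that for `ε ∈ (0, 1]`, for a torus of side `m ≥ C / ε²` and an inverse temperature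
`β` at which the energy of the Gibbs state of `H_m` exceeds the ground state energy by at most
`m² ε² / C`, there is ONE translation invariant tensor of bond dimension at most `exp (C (β + log m))`
whose PEPS vectors are nonzero and reproduce, up to `ε` in trace norm, the reduced states on `R` of ALL
translation invariant ground vectors on ALL tori of side `L ≥ C (m / ε²)²`.

(2) If the energy per site of the Gibbs states converges exponentially fast in `β` to that of the
ground states (uniformly in the torus), the bond dimension is polynomial in `1 / ε`: Q2 holds.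
-/

set_option autoImplicit false

open MeasureTheory
open scoped BigOperators
open Pool.Agent.H4R2
open Pool.Agent.Y665.PE (TransInv herm)

namespace Pool.Agent.Results.MP_0f69bf_mp.ThermalEnergy

/-- `E` is the least eigenvalue of `H`. -/
def LeastEigenvalue {n : Type} [Fintype n] (H : Matrix n n ℂ) (E : ℝ) : Prop :=
  (∃ ψ : n → ℂ, ψ ≠ 0 ∧ H.mulVec ψ = (E : ℂ) • ψ) ∧
    ∀ (E' : ℝ) (φ : n → ℂ), φ ≠ 0 → H.mulVec φ = (E' : ℂ) • φ → E ≤ E'

/-- `ψ` is a normalised eigenvector of `H` for the least eigenvalue, and an eigenvector of all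
translations (this holds for every normalised ground vector if the ground space is
one-dimensional). -/
def InvariantGroundVector {d L : ℕ} [NeZero L]
    (H : Matrix (Site L → Fin d) (Site L → Fin d) ℂ) (ψ : (Site L → Fin d) → ℂ) : Prop :=
  normSq ψ = 1 ∧ TransInv ψ ∧ ∃ E : ℝ, LeastEigenvalue H E ∧ H.mulVec ψ = (E : ℂ) • ψ

/-- The energy `Tr (H exp (-β H)) / Tr exp (-β H)` of the Gibbs state at the inverse temperature
`β`, written with the eigenvalues of `H`. -/
noncomputable def thermalEnergy {n : Type} [Fintype n] [DecidableEq n] {H : Matrix n n ℂ}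
    (hH : H.IsHermitian) (β : ℝ) : ℝ :=
  (∑ j, hH.eigenvalues j * Real.exp (-(β * hH.eigenvalues j))) /
    ∑ j, Real.exp (-(β * hH.eigenvalues j))

/-- The reduced states on `R` of all invariant ground vectors of the tori of side `L ≥ L₀` are
reproduced up to `ε` by the PEPS vectors of the tensor `A`, which are nonzero. -/
def Reproduces {d D : ℕ} (R : Finset (ℤ × ℤ)) (h : Matrix (R → Fin d) (R → Fin d) ℂ)
    (A : Tensor d D) (ε L₀ : ℝ) : Prop :=
  ∀ (L : ℕ) [NeZero L], L₀ ≤ L → contract A L ≠ 0 ∧
    ∀ φ : (Site L → Fin d) → ℂ, InvariantGroundVector (ham R h L) φ →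
      traceNorm (redState R φ - redState R (contract A L)) ≤ ε

/-- Property (1): local approximation from the energy of the Gibbs state on one torus. -/
def ThermalCriterion {d : ℕ} (R : Finset (ℤ × ℤ)) (h : Matrix (R → Fin d) (R → Fin d) ℂ) : Prop :=
  ∃ C : ℝ, 1 ≤ C ∧ ∀ ε : ℝ, 0 < ε → ε ≤ 1 → ∀ (m : ℕ) [NeZero m], C / ε ^ 2 ≤ m →
    ∀ (hH : (ham R h m).IsHermitian) (β : ℝ), 0 ≤ β →
    ∀ E : ℝ, LeastEigenvalue (ham R h m) E →
      thermalEnergy hH β ≤ E + (m : ℝ) ^ 2 * (ε ^ 2 / C) →
    ∃ (D : ℕ) (A : Tensor d D), (D : ℝ) ≤ Real.exp (C * (β + Real.log m)) ∧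
      Reproduces R h A ε (C * (m / ε ^ 2) ^ 2)

/-- The energy per site of the Gibbs states converges exponentially fast in the inverse temperature
to that of the ground states, uniformly in the (large) torus. -/
def FastCooling {d : ℕ} (R : Finset (ℤ × ℤ)) (h : Matrix (R → Fin d) (R → Fin d) ℂ) : Prop :=
  ∃ (c K : ℝ) (L₀ : ℕ), 0 < c ∧ ∀ (L : ℕ) [NeZero L], L₀ ≤ L →
    ∀ (hH : (ham R h L).IsHermitian) (β : ℝ), 0 ≤ β → ∀ E : ℝ, LeastEigenvalue (ham R h L) E →
      thermalEnergy hH β ≤ E + K * (L : ℝ) ^ 2 * Real.exp (-(c * β))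

/-- Q2 for the region `R`: approximation up to `ε` of the reduced states on `R` by one translation
invariant tensor of bond dimension polynomial in `1 / ε`, on all tori of side at least a polynomial
in `1 / ε`. -/
def EfficientLocalStates {d : ℕ} (R : Finset (ℤ × ℤ)) (h : Matrix (R → Fin d) (R → Fin d) ℂ) :
    Prop :=
  ∃ a k : ℕ, ∀ ε : ℝ, 0 < ε → ε ≤ 1 → ∃ (D : ℕ) (A : Tensor d D),
    (D : ℝ) ≤ a * (1 / ε) ^ k ∧ Reproduces R h A ε ((a : ℝ) * (1 / ε) ^ k)

/-- The gap of `h` is stable under perturbations on the region `R`: for every Hermitian `O` on `R`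
there are `δ, Δ > 0` such that for all large `L` and all `0 < t ≤ δ` the Hamiltonian
`H_L(h) + t H_L(O)` has a unique ground state, with a gap of at least `Δ`. -/
def StableGap {d : ℕ} (R : Finset (ℤ × ℤ)) (h : Matrix (R → Fin d) (R → Fin d) ℂ) : Prop :=
  ∀ O : Matrix (R → Fin d) (R → Fin d) ℂ, O.IsHermitian → ∃ δ : ℝ, 0 < δ ∧ ∃ Δ : ℝ, 0 < Δ ∧
    ∃ L₁ : ℕ, ∀ (L : ℕ) [NeZero L], L₁ ≤ L → ∀ t : ℝ, 0 < t → t ≤ δ →
      ∃ φ : (Site L → Fin d) → ℂ, normSq φ = 1 ∧
        IsGappedGround (ham R h L + (t : ℂ) • ham R O L) Δ φ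

/-- **Theorem.** -/
theorem result (d : ℕ) (hd : 2 ≤ d) (R : Finset (ℤ × ℤ)) :
    -- almost every interaction
    (∀ᵐ x : (R → Fin d) → (R → Fin d) → ℝ, ThermalCriterion R (herm x) ∧
      (FastCooling R (herm x) → EfficientLocalStates R (herm x))) ∧
    -- every interaction with a stable gap
    (∀ (h : Matrix (R → Fin d) (R → Fin d) ℂ), h.IsHermitian →
      ∀ ψ : ∀ (L : ℕ) [NeZero L], (Site L → Fin d) → ℂ, GappedFamily R h ψ → StableGap R h →
        ThermalCriterion R h ∧ (FastCooling R h → EfficientLocalStates R h)) :=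
  ⟨Pool.Agent.K3h59.TE.generic_thermal hd R,
    fun _ hh ψ hgap hst => Pool.Agent.K3h59.TE.stable_thermal hd R hh ψ hgap hst⟩

end Pool.Agent.Results.MP_0f69bf_mp.ThermalEnergy
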